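import Pool.Agent.SZT.StmtsB

/-!
# Squad SZT, row BOU (helper39): output of block B
-/

set_option autoImplicit false

noncomputable section

open Polynomial H58Q

namespace Pool.Agent.SZT.H39

open Pool.Agent.SZT Pool.Agent.SZT.B

theorem discr_map {K L : Type} [Field K] [Field L] (φ : K →+* L) {f : K[X]} (hf : f.Monic)
    (h5 : f.natDegree = 5) :
    resultant (f.map φ) (derivative (f.map φ)) = φ (discr f) := by
  have hm : (f.map φ).Monic := hf.map φ
  have hd : (f.map φ).natDegree = 5 := by rw [hf.natDegree_map, h5]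
  have h1 : resultant f (derivative f) 5 4 = discr f := by
    have h := resultant_deriv (f := f) (natDegree_pos_iff_degree_pos.mp (by omega))
    rw [h5, hf.leadingCoeff] at h
    norm_num at h
    exact h
  have hle : (derivative (f.map φ)).natDegree ≤ 4 := by
    have := natDegree_derivative_le (f.map φ)
    omega
  obtain ⟨k, hk⟩ := Nat.exists_eq_add_of_le hle
  have h2 := resultant_add_right_deg (f.map φ) (derivative (f.map φ)) 5
    (derivative (f.map φ)).natDegree k le_rfl
  have hc : (f.map φ).coeff 5 = 1 := by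
    rw [← hd]; exact hm.coeff_natDegree
  rw [hc, one_pow, one_mul, ← hk] at h2
  rw [hd, ← h2, Polynomial.derivative_map, resultant_map_map, h1]

theorem bou (nod : B.NodStmt) (cpl : B.CplStmt) (roo : B.RooStmt) (sqr : B.SqrStmt)
    (kap : B.KapStmt) (rat : B.RatStmt) (nsz : B.NszStmt) (ein : B.EinStmt) (rvl : B.RvlStmt) :
    B.BouStmt := by
  intro K _ v c n f hna hc hc1 hV hf h5 hsq hNS hdis I hI
  have hdn : discr f ≠ 0 := by
    intro h
    rw [h, map_zero] at hdis
    exact (pow_pos hc n).ne hdis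
  have hnt : ∃ x : K, x ≠ 0 ∧ v x ≠ 1 := by
    by_contra hcon
    push Not at hcon
    obtain ⟨-, -, e, h, -, -, hh, h3, hco, -, -⟩ := hNS
    have h0 : f - (X - C e) ^ 2 * h = 0 := by
      ext m
      rw [coeff_zero]
      by_contra hne
      have := hco m
      rw [hcon _ hne] at this
      exact lt_irrefl _ this
    have h1 : (X - C e) * (X - C e) ∣ f := by
      rw [sub_eq_zero.mp h0, ← pow_two]
      exact Dvd.intro _ rfl
    have h2 := hsq _ h1
    exact not_isUnit_X_sub_C e h2
  obtain ⟨Ω, L, _, _, _, _, _, i, j, hij⟩ := cpl K v hna hnt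
  obtain ⟨θ, e₀, hN, he₀⟩ := roo K Ω L i j v f hij hf h5 hdn hNS
  set φ : K →+* L := j.comp i with hφ
  set θL : Fin 5 → L := fun k => j (θ k) with hθL
  have hφv : ∀ x : K, ‖φ x‖ = v x := hij
  obtain ⟨⟨hη0, hη1, -⟩, ⟨hPI, hh0, -⟩, -, -, -, hres⟩ := nod L (f.map φ) θL hN
  have hηd : ‖eta θL‖ = v (discr f) := by
    rw [← hres, discr_map φ hf h5, hφv]
  have hηc : ‖eta θL‖ = c ^ n := by rw [hηd, hdis]
  -- the square root
  obtain ⟨s, hs⟩ : ∃ s : ℕ → L, Sq (hh θL) s := by
    let e : Ω := (θ 0 + θ 1) / 2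
    have he : ctr θL = j e := by
      change (j (θ 0) + j (θ 1)) / 2 = j ((θ 0 + θ 1) / 2)
      rw [map_div₀, map_add, map_ofNat]
    let w : Ω := (e - θ 2) * (e - θ 3) * (e - θ 4)
    obtain ⟨z, hz⟩ := IsAlgClosed.exists_pow_nat_eq w (n := 2) (by norm_num)
    have hw : (hh θL).coeff 0 = j w := by
      rw [Polynomial.coeff_zero_eq_eval_zero]
      unfold hh
      rw [eval_mul, eval_mul, eval_sub, eval_sub, eval_sub, eval_X, eval_C, eval_C, eval_C, he,
        map_mul, map_mul, map_sub, map_sub, map_sub]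
      ring
    have hz2 : (j z) ^ 2 = (hh θL).coeff 0 := by rw [hw, ← hz, map_pow]
    refine sqr L (hh θL) (j z) hN.two hPI hz2 ?_
    have h1 : ‖j z‖ ^ 2 = 1 := by rw [← norm_pow, hz2, hh0]
    exact (pow_eq_one_iff_of_nonneg (norm_nonneg _) (by norm_num)).mp h1
  have h20 : (2 : K) ≠ 0 := by
    intro h
    have h' := hNS.1
    rw [h, map_zero] at h'
    exact zero_ne_one h'
  have hspl : ∀ p : K[X], (p.map φ).Splits := by
    intro p
    rw [hφ, ← Polynomial.map_map]
    exact (IsAlgClosed.splits (p.map i)).map j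
  obtain ⟨s₁, A₁, B₁, hM₁, hd₁, hs₁, hk, hp⟩ :=
    kap K L φ f θL s h20 hsq h5 hN hs hspl I hI
  obtain ⟨e', he'⟩ := rat K L φ f θL e₀ hN he₀
  refine ⟨s₁, hp, ?_, ?_⟩
  · rw [hs₁]
    exact nsz K L φ f A₁ B₁ θL s c n e' hc hc1 (fun x hx => by rw [hφv]; exact hV x hx) hN hs hηc
      he' hM₁ hd₁ (hspl A₁)
  · intro k A B U W M hMu hdeg hcl hM0 hMe hUW hdvd hres0
    obtain ⟨jj, hjj⟩ := hk k A B hMu hcl
    have hAm : (A.map φ).Monic := hMu.monic.map φ
    have hroot : ∀ a ∈ (A.map φ).roots, (A.map φ).eval a = 0 := fun a ha => (mem_roots'.mp ha).2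
    have hrU := rvl K L φ v A U hφv hMu.monic (hspl A)
    have hU0 : ∀ a ∈ (A.map φ).roots, (U.map φ).eval a ≠ 0 := by
      intro a ha h
      have h1 : v (resultant A U) = 0 := by
        rw [hrU]
        apply Multiset.prod_eq_zero
        rw [Multiset.mem_map]
        exact ⟨a, ha, by rw [h, norm_zero]⟩
      exact hres0 (v.eq_zero.mp h1)
    have hUW2 : (U.map φ) ^ 2 - (f.map φ) * (W.map φ) ^ 2 = (A.map φ) ^ M := by
      rw [← Polynomial.map_pow, ← Polynomial.map_pow, ← Polynomial.map_pow, ← Polynomial.map_mul,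
        ← Polynomial.map_sub, hUW]
    have hf0 : ∀ a ∈ (A.map φ).roots, (f.map φ).eval a ≠ 0 := by
      intro a ha h
      have h1 := congrArg (fun p : L[X] => p.eval a) hUW2
      simp only [eval_sub, eval_pow, eval_mul] at h1
      rw [hroot a ha, h, zero_pow hM0.ne', zero_mul, sub_zero] at h1
      exact hU0 a ha (pow_eq_zero_iff (two_ne_zero) |>.mp h1)
    have hpts : ∀ a ∈ (A.map φ).roots, (B.map φ).eval a ^ 2 = (f.map φ).eval a ∧
        (U.map φ).eval a + (W.map φ).eval a * (B.map φ).eval a = 0 ∧ (U.map φ).eval a ≠ 0 := by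
      intro a ha
      refine ⟨?_, ?_, hU0 a ha⟩
      · have h2 : A.map φ ∣ (B.map φ) ^ 2 - f.map φ := by
          have := Polynomial.map_dvd φ hMu.dvd
          rwa [Polynomial.map_sub, Polynomial.map_pow] at this
        have h3 := Polynomial.eval_eq_zero_of_dvd_of_eval_eq_zero h2 (hroot a ha)
        rw [eval_sub, eval_pow] at h3
        exact sub_eq_zero.mp h3
      · have h2 : A.map φ ∣ U.map φ + B.map φ * W.map φ := by
          have := Polynomial.map_dvd φ hdvd
          rwa [Polynomial.map_add, Polynomial.map_mul] at this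
        have h3 := Polynomial.eval_eq_zero_of_dvd_of_eval_eq_zero h2 (hroot a ha)
        rw [eval_add, eval_mul] at h3
        rw [mul_comm]
        exact h3
    have hE := ein L (f.map φ) θL s (A.map φ) (B.map φ) (U.map φ) (W.map φ) M hN hs hAm (hspl A)
      (by rw [hMu.monic.natDegree_map]; exact hdeg) hMe hM0 hUW2 hpts
    rw [hjj, Int.fract_add_intCast, hηd] at hE
    refine hE.trans (le_of_eq ?_)
    have h2L : (2 : L) ≠ 0 := by
      intro h
      have h' := hN.two
      rw [h, norm_zero] at h'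
      exact zero_ne_one h'
    have h4L : (4 : L) ≠ 0 := by
      have : (4 : L) = 2 * 2 := by norm_num
      rw [this]; exact mul_ne_zero h2L h2L
    have hlog : ∀ (g : L → L), (∀ a ∈ (A.map φ).roots, g a ≠ 0) →
        Real.log (((A.map φ).roots.map fun a => ‖g a‖).prod) =
          ((A.map φ).roots.map fun a => Real.log ‖g a‖).sum := by
      intro g
      generalize (A.map φ).roots = S
      induction S using Multiset.induction_on with
      | empty => intro _; simp
      | cons a S ih =>
        intro hg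
        rw [Multiset.map_cons, Multiset.prod_cons, Multiset.map_cons, Multiset.sum_cons,
          Real.log_mul (norm_ne_zero_iff.mpr (hg a (Multiset.mem_cons_self a S))),
          ih (fun b hb => hg b (Multiset.mem_cons_of_mem hb))]
        refine Multiset.prod_ne_zero ?_
        rw [Multiset.mem_map]
        rintro ⟨b, hb, h0⟩
        exact hg b (Multiset.mem_cons_of_mem hb) (norm_eq_zero.mp h0)
    unfold Lv
    rw [rvl K L φ v A (4 * f) hφv hMu.monic (hspl A), rvl K L φ v A (2 * U) hφv hMu.monic (hspl A)]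
    have e4 : ∀ a : L, ((4 * f).map φ).eval a = 4 * (f.map φ).eval a := by
      intro a
      rw [Polynomial.map_mul, eval_mul]
      congr 1
      simp
    have e2 : ∀ a : L, ((2 * U).map φ).eval a = 2 * (U.map φ).eval a := by
      intro a
      rw [Polynomial.map_mul, eval_mul]
      congr 1
      simp
    simp only [e4, e2]
    rw [hlog (fun a => 4 * (f.map φ).eval a) (fun a ha => mul_ne_zero h4L (hf0 a ha)),
      hlog (fun a => 2 * (U.map φ).eval a) (fun a ha => mul_ne_zero h2L (hU0 a ha)),
      Multiset.sum_map_sub, Multiset.sum_map_mul_left, Multiset.sum_map_mul_left]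

end Pool.Agent.SZT.H39
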