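import Pool.Agent.SZT.StmtsB

/-!
# Squad SZT, row NSZ (helper39)
-/

set_option autoImplicit false

noncomputable section

open Polynomial H58Q

namespace Pool.Agent.SZT.H39

open Pool.Agent.SZT Pool.Agent.SZT.B

/-! ### limits of `φ(K)` -/

theorem cl_iff {K L : Type} [Field K] [NormedField L] (φ : K →+* L) (x : L) :
    Cl φ x ↔ x ∈ closure (Set.range φ) := by
  unfold Cl
  rw [Metric.mem_closure_range_iff]
  refine forall_congr' fun ε => forall_congr' fun _ => exists_congr fun κ => ?_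
  rw [dist_eq_norm]

theorem cl_range {K L : Type} [Field K] [NormedField L] (φ : K →+* L) (κ : K) :
    Cl φ (φ κ) := (cl_iff φ _).mpr (subset_closure ⟨κ, rfl⟩)

theorem cl_add {K L : Type} [Field K] [NormedField L] {φ : K →+* L} {x : L} (h : Cl φ x)
    (κ : K) : Cl φ (x + φ κ) := by
  rw [cl_iff] at h ⊢
  refine map_mem_closure (f := fun z : L => z + φ κ) (continuous_id.add continuous_const) h ?_
  rintro _ ⟨κ', rfl⟩
  exact ⟨κ' + κ, by simp⟩

theorem cl_eval {K L : Type} [Field K] [NormedField L] {φ : K →+* L} {x : L} (h : Cl φ x)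
    (B : K[X]) : Cl φ ((B.map φ).eval x) := by
  rw [cl_iff] at h ⊢
  refine map_mem_closure (f := fun z : L => (B.map φ).eval z) (B.map φ).continuous h ?_
  rintro _ ⟨κ', rfl⟩
  exact ⟨B.eval κ', (Polynomial.eval_map_apply φ κ').symm⟩

theorem cl_norm {K L : Type} [Field K] [NormedField L] [IsUltrametricDist L] {φ : K →+* L}
    {c : ℝ} (hV : ∀ x : K, x ≠ 0 → ∃ k : ℤ, ‖φ x‖ = c ^ k) {x : L} (h : Cl φ x) (hx : x ≠ 0) :
    ∃ k : ℤ, ‖x‖ = c ^ k := by
  obtain ⟨κ, hκ⟩ := h ‖x‖ (norm_pos_iff.mpr hx)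
  have h1 : ‖φ κ‖ = ‖x‖ := by
    have h2 : φ κ = x + -(x - φ κ) := by ring
    rw [h2, IsUltrametricDist.norm_add_eq_max_of_norm_ne_norm (by rw [norm_neg]; exact ne_of_gt hκ),
      norm_neg]
    exact max_eq_left hκ.le
  have h3 : κ ≠ 0 := by
    rintro rfl
    rw [map_zero, norm_zero] at h1
    exact hx (norm_eq_zero.mp h1.symm)
  obtain ⟨k, hk⟩ := hV κ h3
  exact ⟨k, by rw [← h1, hk]⟩

/-! ### real numbers -/

theorem rpow_int {c : ℝ} (hc : 0 < c) (hc1 : c < 1) {n : ℕ} {r u : ℝ} (hr : r = c ^ n) {k : ℤ}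
    (h : r ^ u = c ^ k) : n * u = k := by
  have h1 : r ^ u = c ^ ((n : ℝ) * u) := by
    rw [hr, Real.rpow_mul hc.le, Real.rpow_natCast]
  rw [h1, ← Real.rpow_intCast] at h
  have h2 := congrArg Real.log h
  rw [Real.log_rpow hc, Real.log_rpow hc] at h2
  exact mul_right_cancel₀ (Real.log_neg hc hc1).ne h2

/-- the facts on one point of the annulus -/
theorem pt {K L : Type} [Field K] [NormedField L] [IsUltrametricDist L] [CompleteSpace L]
    (nod : B.NodStmt) (cht : B.ChtStmt) {φ : K →+* L} {f : K[X]} {θ : Fin 5 → L} {s : ℕ → L}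
    {e' : K} (hN : Node (f.map φ) θ) (hs : Sq (hh θ) s) (he : ‖φ e' - ctr θ‖ ≤ ‖eta θ‖)
    {a y : L} (hy : y ^ 2 = (f.map φ).eval a) (ha : ‖a - ctr θ‖ < 1) {t : ℝ}
    (ht : t = pos ‖eta θ‖ (crd θ s a y)) :
    (t ≠ 1 / 2 → ‖a - φ e'‖ = ‖eta θ‖ ^ min t (1 - t) ∧ ‖eta θ‖ ^ (1 / 2 : ℝ) < ‖a - φ e'‖) ∧
    (t = 1 / 2 → ‖a - φ e'‖ ≤ ‖eta θ‖ ^ (1 / 2 : ℝ) ∧
      (‖a - φ e'‖ = ‖eta θ‖ ^ (1 / 2 : ℝ) ∨ ‖y‖ = ‖eta θ‖ ^ (1 / 2 : ℝ))) := by
  obtain ⟨⟨hη0, hη1, -⟩, -⟩ := nod L (f.map φ) θ hN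
  obtain ⟨h1, h2, -⟩ := cht L (f.map φ) θ s hN hs
  obtain ⟨hA, hx, hyy, -⟩ := h2 a y hy ha
  obtain ⟨-, -, hn, -⟩ := h1 _ hA
  rw [hyy] at hn
  generalize crd θ s a y = x at hA hx hyy hn ht
  have hr0 : 0 < ‖eta θ‖ := norm_pos_iff.mpr hη0
  have hx0 : 0 < ‖x‖ := hr0.trans hA.1
  have hlr : Real.log ‖eta θ‖ < 0 := Real.log_neg hr0 hη1
  have hrt : ‖eta θ‖ ^ t = ‖x‖ := by
    rw [ht]
    unfold pos
    rw [Real.rpow_def_of_pos hr0, mul_div_cancel₀ _ hlr.ne, Real.exp_log hx0]
  have hrt' : ‖eta θ‖ ^ (1 - t) = ‖eta θ / x‖ := by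
    rw [norm_div, Real.rpow_sub hr0, Real.rpow_one, hrt]
  have hz : a - ctr θ = (x + eta θ / x) / 2 := by
    rw [← hx]; unfold xx; ring
  have hzn : ‖a - ctr θ‖ = ‖x + eta θ / x‖ := by
    rw [hz, norm_div, hN.two, div_one]
  have hz'' : a - φ e' = (a - ctr θ) + -(φ e' - ctr θ) := by ring
  have hr12 : ‖eta θ‖ < ‖eta θ‖ ^ (1 / 2 : ℝ) := by
    have h := Real.rpow_lt_rpow_of_exponent_gt hr0 hη1 (show (1 / 2 : ℝ) < 1 by norm_num)
    rwa [Real.rpow_one] at h
  have hbig : ∀ w : ℝ, ‖eta θ‖ ^ (1 / 2 : ℝ) ≤ w → ‖a - ctr θ‖ = w → ‖a - φ e'‖ = w := by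
    intro w hw hw2
    rw [hz'', IsUltrametricDist.norm_add_eq_max_of_norm_ne_norm (by
      rw [norm_neg, hw2]; exact ne_of_gt (lt_of_le_of_lt he (lt_of_lt_of_le hr12 hw))), norm_neg,
      hw2]
    exact max_eq_left (he.trans (hr12.le.trans hw))
  refine ⟨?_, ?_⟩
  · intro hne
    have hmin : ‖a - ctr θ‖ = ‖eta θ‖ ^ min t (1 - t) := by
      have hne2 : ‖x‖ ≠ ‖eta θ / x‖ := by
        rw [← hrt, ← hrt']
        intro h
        have h3 := congrArg Real.log h
        rw [Real.log_rpow hr0, Real.log_rpow hr0] at h3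
        have h4 := mul_right_cancel₀ hlr.ne h3
        apply hne
        linarith
      rw [hzn, IsUltrametricDist.norm_add_eq_max_of_norm_ne_norm hne2, ← hrt, ← hrt']
      rcases le_total t (1 - t) with h3 | h3
      · rw [min_eq_left h3]
        exact max_eq_left (Real.rpow_le_rpow_of_exponent_ge hr0 hη1.le h3)
      · rw [min_eq_right h3]
        exact max_eq_right (Real.rpow_le_rpow_of_exponent_ge hr0 hη1.le h3)
    have hlt : ‖eta θ‖ ^ (1 / 2 : ℝ) < ‖eta θ‖ ^ min t (1 - t) := by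
      apply Real.rpow_lt_rpow_of_exponent_gt hr0 hη1
      rcases lt_or_gt_of_ne hne with h3 | h3
      · exact lt_of_le_of_lt (min_le_left _ _) h3
      · exact lt_of_le_of_lt (min_le_right _ _) (by linarith)
    have h5 := hbig _ hlt.le hmin
    exact ⟨h5, by rw [h5]; exact hlt⟩
  · intro he2
    have hx12 : ‖x‖ = ‖eta θ‖ ^ (1 / 2 : ℝ) := by rw [← hrt, he2]
    have hx12' : ‖eta θ / x‖ = ‖eta θ‖ ^ (1 / 2 : ℝ) := by
      rw [← hrt', he2]
      norm_num
    have hzle : ‖a - ctr θ‖ ≤ ‖eta θ‖ ^ (1 / 2 : ℝ) := by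
      rw [hzn]
      refine (IsUltrametricDist.norm_add_le_max _ _).trans ?_
      rw [hx12, hx12', max_self]
    refine ⟨?_, ?_⟩
    · rw [hz'']
      refine (IsUltrametricDist.norm_add_le_max _ _).trans ?_
      rw [norm_neg]
      exact max_le hzle (he.trans hr12.le)
    · by_cases h3 : ‖a - ctr θ‖ = ‖eta θ‖ ^ (1 / 2 : ℝ)
      · exact Or.inl (hbig _ le_rfl h3)
      · right
        have h4 : ‖a - ctr θ‖ < ‖eta θ‖ ^ (1 / 2 : ℝ) := lt_of_le_of_ne hzle h3
        have h5 : ‖x - eta θ / x‖ ≤ ‖eta θ‖ ^ (1 / 2 : ℝ) := by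
          rw [sub_eq_add_neg]
          refine (IsUltrametricDist.norm_add_le_max _ _).trans ?_
          rw [norm_neg, hx12, hx12', max_self]
        have h6 : ‖x‖ ≤ max ‖a - ctr θ‖ ‖x - eta θ / x‖ := by
          have h20 : (2 : L) ≠ 0 := by
            intro h
            have h' := hN.two
            rw [h, norm_zero] at h'
            exact zero_ne_one h'
          have h7 : x = (a - ctr θ) + (x - eta θ / x) / 2 := by
            rw [hz, ← add_div, eq_div_iff h20]
            ring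
          calc ‖x‖ = ‖(a - ctr θ) + (x - eta θ / x) / 2‖ := by rw [← h7]
            _ ≤ _ := IsUltrametricDist.norm_add_le_max _ _
            _ = _ := by rw [norm_div, hN.two, div_one]
        rw [hn]
        rw [hx12] at h6
        rcases le_max_iff.mp h6 with h7 | h7
        · linarith
        · exact le_antisymm h5 h7

theorem nsz (nod : B.NodStmt) (cht : B.ChtStmt) (lim : B.LimStmt) : B.NszStmt := by
  classical
  intro K L _ _ _ _ φ f A B θ s c n e' hc hc1 hV hN hs hη he hM hdeg hsp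
  obtain ⟨⟨hη0, hη1, -⟩, -⟩ := nod L (f.map φ) θ hN
  have hr0 : 0 < ‖eta θ‖ := norm_pos_iff.mpr hη0
  have hr12 : ‖eta θ‖ < ‖eta θ‖ ^ (1 / 2 : ℝ) := by
    have h := Real.rpow_lt_rpow_of_exponent_gt hr0 hη1 (show (1 / 2 : ℝ) < 1 by norm_num)
    rwa [Real.rpow_one] at h
  have hr120 : 0 < ‖eta θ‖ ^ (1 / 2 : ℝ) := Real.rpow_pos_of_pos hr0 _
  have hAm : (A.map φ).Monic := hM.monic.map φ
  -- points of the curve
  have hcur : ∀ a ∈ (A.map φ).roots, ((B.map φ).eval a) ^ 2 = (f.map φ).eval a := by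
    intro a ha
    have h1 : (A.map φ).eval a = 0 := (mem_roots'.mp ha).2
    have h2 : A.map φ ∣ (B.map φ) ^ 2 - f.map φ := by
      have := Polynomial.map_dvd φ hM.dvd
      rwa [Polynomial.map_sub, Polynomial.map_pow] at this
    have h3 := Polynomial.eval_eq_zero_of_dvd_of_eval_eq_zero h2 h1
    rw [eval_sub, eval_pow] at h3
    exact sub_eq_zero.mp h3
  set S := (A.map φ).roots with hS
  let T : L → ℝ := fun a => pos ‖eta θ‖ (crd θ s a ((B.map φ).eval a))
  have hss : ss θ s (A.map φ) (B.map φ) =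
      ((S.filter (fun a => ‖a - ctr θ‖ < 1)).map T).sum := by
    unfold ss nz
    rw [Multiset.map_map]
    rfl
  -- step (1)
  have hone : ∀ a ∈ S, ‖a - ctr θ‖ < 1 → Cl φ (a - φ e') → ∃ j : ℤ, (n : ℝ) * T a = j := by
    intro a haS ha hcl
    obtain ⟨h1, h2⟩ := pt nod cht hN hs he (hcur a haS) ha (t := T a) rfl
    by_cases ht : T a = 1 / 2
    · obtain ⟨-, h3⟩ := h2 ht
      rw [ht]
      rcases h3 with h3 | h3
      · have h4 : a - φ e' ≠ 0 := by
          intro h; rw [h, norm_zero] at h3; exact hr120.ne h3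
        obtain ⟨k, hk⟩ := cl_norm hV hcl h4
        exact ⟨k, rpow_int hc hc1 hη (h3.symm.trans hk)⟩
      · have h4 : (B.map φ).eval a ≠ 0 := by
          intro h; rw [h, norm_zero] at h3; exact hr120.ne h3
        have h5 : Cl φ ((B.map φ).eval a) := by
          have := cl_add hcl e'
          rw [sub_add_cancel] at this
          exact cl_eval this B
        obtain ⟨k, hk⟩ := cl_norm hV h5 h4
        exact ⟨k, rpow_int hc hc1 hη (h3.symm.trans hk)⟩
    · obtain ⟨h3, h4⟩ := h1 ht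
      have h5 : a - φ e' ≠ 0 := by
        intro h; rw [h, norm_zero] at h4; linarith
      obtain ⟨k, hk⟩ := cl_norm hV hcl h5
      have h6 := rpow_int hc hc1 hη (h3.symm.trans hk)
      rcases le_total (T a) (1 - T a) with h7 | h7
      · rw [min_eq_left h7] at h6
        exact ⟨k, h6⟩
      · rw [min_eq_right h7] at h6
        refine ⟨n - k, ?_⟩
        push_cast
        linarith
  have hcard : S.card ≤ 2 := by
    refine (Polynomial.card_roots' _).trans ?_
    rw [hM.monic.natDegree_map]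
    exact hdeg
  have hprod : A.map φ = (S.map (fun a => X - C a)).prod := by
    exact (hsp.eq_prod_roots_of_monic hAm)
  rw [hss]
  rcases Nat.lt_or_ge S.card 1 with h0 | h0
  · have h1 : S = 0 := Multiset.card_eq_zero.mp (by omega)
    rw [h1]
    exact ⟨0, by simp⟩
  rcases Nat.lt_or_ge S.card 2 with h1 | h1
  · obtain ⟨a, ha⟩ := Multiset.card_eq_one.mp (show S.card = 1 by omega)
    rw [ha] at hprod
    rw [Multiset.map_singleton, Multiset.prod_singleton] at hprod
    have h2 : a = φ (-(A.coeff 0)) := by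
      have h3 := congrArg (fun p : L[X] => p.coeff 0) hprod
      simp only [coeff_map, coeff_sub, coeff_X_zero, coeff_C_zero] at h3
      rw [map_neg, h3]; ring
    rw [ha]
    by_cases h4 : ‖a - ctr θ‖ < 1
    · rw [Multiset.filter_singleton, if_pos h4, Multiset.map_singleton, Multiset.sum_singleton]
      refine hone a (by rw [ha]; exact Multiset.mem_singleton_self a) h4 ?_
      rw [h2, ← map_sub]
      exact cl_range φ _
    · rw [Multiset.filter_singleton, if_neg h4]
      exact ⟨0, by simp⟩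
  · obtain ⟨a₁, a₂, ha⟩ := Multiset.card_eq_two.mp (show S.card = 2 by omega)
    have hm1 : a₁ ∈ S := by rw [ha]; simp
    have hm2 : a₂ ∈ S := by rw [ha]; simp
    have hprod2 : A.map φ = (X - C a₁) * (X - C a₂) := by
      rw [hprod, ha]
      simp
    have hq : (a₁ - φ e') * (a₂ - φ e') = φ (A.eval e') := by
      have h3 := congrArg (fun p : L[X] => p.eval (φ e')) hprod2
      simp only [Polynomial.eval_map_apply, eval_mul, eval_sub, eval_X, eval_C] at h3
      rw [h3]; ring
    have hp : (a₁ - φ e') + (a₂ - φ e') = φ (-(derivative A).eval e') := by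
      have h3 := congrArg (fun p : L[X] => (derivative p).eval (φ e')) hprod2
      simp only [Polynomial.derivative_map, Polynomial.eval_map_apply, derivative_mul,
        derivative_sub, derivative_X, derivative_C, sub_zero, one_mul, mul_one, eval_add,
        eval_sub, eval_X, eval_C] at h3
      rw [map_neg, h3]; ring
    have hlim : ‖a₁ - φ e'‖ < ‖a₂ - φ e'‖ → Cl φ (a₁ - φ e') ∧ Cl φ (a₂ - φ e') :=
      lim K L φ _ _ _ _ hp hq
    have hlim' : ‖a₂ - φ e'‖ < ‖a₁ - φ e'‖ → Cl φ (a₂ - φ e') ∧ Cl φ (a₁ - φ e') :=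
      lim K L φ _ _ _ _ (by rw [add_comm]; exact hp) (by rw [mul_comm]; exact hq)
    -- outside of the disc
    have hout : ∀ a : L, ¬ ‖a - ctr θ‖ < 1 → 1 ≤ ‖a - φ e'‖ := by
      intro a h
      rw [not_lt] at h
      have h3 : a - φ e' = (a - ctr θ) + -(φ e' - ctr θ) := by ring
      rw [h3, IsUltrametricDist.norm_add_eq_max_of_norm_ne_norm (by
        rw [norm_neg]; exact ne_of_gt (lt_of_lt_of_le (lt_of_le_of_lt he hη1) h))]
      exact h.trans (le_max_left _ _)
    have hin : ∀ a : L, ‖a - ctr θ‖ < 1 → ‖a - φ e'‖ < 1 := by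
      intro a h
      have h3 : a - φ e' = (a - ctr θ) + -(φ e' - ctr θ) := by ring
      rw [h3]
      refine lt_of_le_of_lt (IsUltrametricDist.norm_add_le_max _ _) ?_
      rw [norm_neg]
      exact max_lt h (lt_of_le_of_lt he hη1)
    have hfil : S.filter (fun a => ‖a - ctr θ‖ < 1) =
        (if ‖a₁ - ctr θ‖ < 1 then {a₁} else 0) + (if ‖a₂ - ctr θ‖ < 1 then {a₂} else 0) := by
      have h3 : S = {a₁} + {a₂} := by rw [ha]; rfl
      rw [h3, Multiset.filter_add, Multiset.filter_singleton, Multiset.filter_singleton]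
      rfl
    rw [hfil]
    by_cases h2 : ‖a₁ - ctr θ‖ < 1
    · by_cases h3 : ‖a₂ - ctr θ‖ < 1
      · rw [if_pos h2, if_pos h3, Multiset.map_add, Multiset.map_singleton,
          Multiset.map_singleton, Multiset.sum_add, Multiset.sum_singleton,
          Multiset.sum_singleton]
        rcases lt_trichotomy ‖a₁ - φ e'‖ ‖a₂ - φ e'‖ with h4 | h4 | h4
        · obtain ⟨h5, h6⟩ := hlim h4
          obtain ⟨j₁, hj₁⟩ := hone a₁ hm1 h2 h5
          obtain ⟨j₂, hj₂⟩ := hone a₂ hm2 h3 h6
          exact ⟨j₁ + j₂, by push_cast; rw [mul_add, hj₁, hj₂]⟩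
        · obtain ⟨u1, u2⟩ := pt nod cht hN hs he (hcur a₁ hm1) h2 (t := T a₁) rfl
          obtain ⟨w1, w2⟩ := pt nod cht hN hs he (hcur a₂ hm2) h3 (t := T a₂) rfl
          by_cases h5 : ‖a₁ - φ e'‖ ≤ ‖eta θ‖ ^ (1 / 2 : ℝ)
          · have h6 : T a₁ = 1 / 2 := by
              by_contra h; exact absurd (u1 h).2 (not_lt.mpr h5)
            have h7 : T a₂ = 1 / 2 := by
              by_contra h; exact absurd (w1 h).2 (not_lt.mpr (by rw [← h4]; exact h5))
            refine ⟨n, ?_⟩
            rw [h6, h7]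
            push_cast
            ring
          · rw [not_le] at h5
            have h6 : T a₁ ≠ 1 / 2 := fun h => absurd (u2 h).1 (not_le.mpr h5)
            have h7 : T a₂ ≠ 1 / 2 := fun h => absurd (w2 h).1 (not_le.mpr (by
              rw [← h4]; exact h5))
            have h8 := (u1 h6).1
            have h9 := (w1 h7).1
            have hq0 : A.eval e' ≠ 0 := by
              intro h
              rw [h, map_zero] at hq
              have h10 := congrArg norm hq
              rw [norm_mul, norm_zero, ← h4] at h10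
              have h11 : 0 < ‖a₁ - φ e'‖ := hr120.trans h5
              nlinarith
            obtain ⟨k, hk⟩ := hV _ hq0
            rw [← hq, norm_mul] at hk
            have h12 : ‖eta θ‖ ^ (2 * min (T a₁) (1 - T a₁)) = c ^ k := by
              rw [← hk, ← h4, h8, ← Real.rpow_add hr0]
              ring_nf
            have h13 : ‖eta θ‖ ^ (2 * min (T a₂) (1 - T a₂)) = c ^ k := by
              rw [← hk, h4, h9, ← Real.rpow_add hr0]
              ring_nf
            have h14 := rpow_int hc hc1 hη h12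
            have h15 := rpow_int hc hc1 hη h13
            rcases le_total (T a₁) (1 - T a₁) with h16 | h16
            · rw [min_eq_left h16] at h14
              rcases le_total (T a₂) (1 - T a₂) with h17 | h17
              · rw [min_eq_left h17] at h15
                exact ⟨k, by linarith⟩
              · rw [min_eq_right h17] at h15
                exact ⟨n, by push_cast; linarith⟩
            · rw [min_eq_right h16] at h14
              rcases le_total (T a₂) (1 - T a₂) with h17 | h17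
              · rw [min_eq_left h17] at h15
                exact ⟨n, by push_cast; linarith⟩
              · rw [min_eq_right h17] at h15
                exact ⟨2 * n - k, by push_cast; linarith⟩
        · obtain ⟨h5, h6⟩ := hlim' h4
          obtain ⟨j₁, hj₁⟩ := hone a₁ hm1 h2 h6
          obtain ⟨j₂, hj₂⟩ := hone a₂ hm2 h3 h5
          exact ⟨j₁ + j₂, by push_cast; rw [mul_add, hj₁, hj₂]⟩
      · rw [if_pos h2, if_neg h3, add_zero, Multiset.map_singleton, Multiset.sum_singleton]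
        exact hone a₁ hm1 h2 (hlim (lt_of_lt_of_le (hin a₁ h2) (hout a₂ h3))).1
    · by_cases h3 : ‖a₂ - ctr θ‖ < 1
      · rw [if_neg h2, if_pos h3, zero_add, Multiset.map_singleton, Multiset.sum_singleton]
        exact hone a₂ hm2 h3 (hlim' (lt_of_lt_of_le (hin a₂ h3) (hout a₁ h2))).1
      · rw [if_neg h2, if_neg h3, add_zero, Multiset.map_zero, Multiset.sum_zero]
        exact ⟨0, by simp⟩

end Pool.Agent.SZT.H39
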